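import Mathlib

/-!
Families of sets closed under unions and intersections without polynomial differences.
-/

set_option autoImplicit false
set_option linter.unusedSectionVars false

open Finset

namespace Q123.PHJ

variable {X : Type*} [Fintype X] [DecidableEq X] {N : ℕ}

/-- closed under unions and intersections -/
def Lat (S : Finset (Finset X)) : Prop := ∀ A ∈ S, ∀ B ∈ S, A ∪ B ∈ S ∧ A ∩ B ∈ S

/-- no member and nonempty `γ` such that `A` is disjoint from `g γ` and `A ∪ g γ` is a member -/
def Bad (g : Finset (Fin N) → Finset X) (S : Finset (Finset X)) : Prop :=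
  ∀ A ∈ S, ∀ γ : Finset (Fin N), γ.Nonempty → Disjoint A (g γ) → A ∪ g γ ∉ S

lemma Lat.exists_union {S : Finset (Finset X)} (h : Lat S) {J : Type*}
    (s : Finset J) (hs : s.Nonempty) (B : J → Finset X) (hB : ∀ j ∈ s, B j ∈ S) :
    ∃ Z ∈ S, ∀ x, x ∈ Z ↔ ∃ j ∈ s, x ∈ B j := by
  induction hs using Finset.Nonempty.cons_induction with
  | singleton a => exact ⟨B a, hB a (by simp), fun x => by simp⟩
  | cons a s ha hs ih =>
    obtain ⟨Z, hZ, hZ'⟩ := ih fun j hj => hB j (mem_cons.2 (Or.inr hj))
    refine ⟨_, (h _ (hB a (by simp)) _ hZ).1, fun x => ?_⟩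
    rw [mem_union, hZ']
    simp

lemma Lat.exists_inter {S : Finset (Finset X)} (h : Lat S) {J : Type*}
    (s : Finset J) (hs : s.Nonempty) (B : J → Finset X) (hB : ∀ j ∈ s, B j ∈ S) :
    ∃ Z ∈ S, ∀ x, x ∈ Z ↔ ∀ j ∈ s, x ∈ B j := by
  induction hs using Finset.Nonempty.cons_induction with
  | singleton a => exact ⟨B a, hB a (by simp), fun x => by simp⟩
  | cons a s ha hs ih =>
    obtain ⟨Z, hZ, hZ'⟩ := ih fun j hj => hB j (mem_cons.2 (Or.inr hj))
    refine ⟨_, (h _ (hB a (by simp)) _ hZ).2, fun x => ?_⟩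
    rw [mem_inter, hZ']
    simp

lemma Lat.filter_mem {S : Finset (Finset X)} (h : Lat S) (w : X) : Lat (S.filter fun B => w ∈ B) := by
  intro A hA B hB
  rw [mem_filter] at hA hB
  have := h A hA.1 B hB.1
  exact ⟨mem_filter.2 ⟨this.1, mem_union_left _ hA.2⟩, mem_filter.2 ⟨this.2, mem_inter.2 ⟨hA.2, hB.2⟩⟩⟩

lemma Lat.filter_notMem {S : Finset (Finset X)} (h : Lat S) (w : X) :
    Lat (S.filter fun B => w ∉ B) := by
  intro A hA B hB
  rw [mem_filter] at hA hB
  have := h A hA.1 B hB.1
  refine ⟨mem_filter.2 ⟨this.1, ?_⟩, mem_filter.2 ⟨this.2, ?_⟩⟩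
  · rw [mem_union]
    tauto
  · rw [mem_inter]
    tauto

lemma Bad.mono {g : Finset (Fin N) → Finset X} {S T : Finset (Finset X)} (h : Bad g S)
    (hT : T ⊆ S) : Bad g T :=
  fun A hA γ hγ hd hcon => h A (hT hA) γ hγ hd (hT hcon)

theorem main_aux (g : Finset (Fin N) → Finset X) (hmono : ∀ γ γ', γ ⊆ γ' → g γ ⊆ g γ')
    (ix : X → Fin N) (hix : ∀ γ, ∀ c ∈ g γ, ix c ∈ γ) (m : ℕ) :
    ∀ (Γ : Finset (Fin N)) (S : Finset (Finset X)) (K : Finset X), Γ.card = m → Lat S → Bad g S →
      (∀ A ∈ S, ∀ B ∈ S, ∀ c ∈ K, c ∈ A → c ∈ B) → Disjoint (g Γ) K →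
      S.card * 2 ^ m ≤ 2 ^ Kᶜ.card := by
  classical
  induction m with
  | zero =>
    intro Γ S K _ _ _ hK _
    rw [pow_zero, mul_one, ← card_powerset]
    refine card_le_card_of_injOn (fun A => A ∩ Kᶜ) ?_ ?_
    · intro A _
      exact mem_coe.2 (mem_powerset.2 inter_subset_right)
    · intro A hA B hB hAB
      have hA : A ∈ S := hA
      have hB : B ∈ S := hB
      have hAB : A ∩ Kᶜ = B ∩ Kᶜ := hAB
      ext x
      by_cases hx : x ∈ K
      · exact ⟨hK A hA B hB x hx, hK B hB A hA x hx⟩
      · have h1 : x ∈ A ∩ Kᶜ ↔ x ∈ B ∩ Kᶜ := by rw [hAB]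
        rw [mem_inter, mem_inter, mem_compl] at h1
        constructor
        · intro h
          exact (h1.1 ⟨h, hx⟩).1
        · intro h
          exact (h1.2 ⟨h, hx⟩).1
  | succ m ih =>
    intro Γ S K hΓ hS hbad hK hd
    have hΓne : Γ.Nonempty := card_pos.1 (by omega)
    rcases S.eq_empty_or_nonempty with rfl | ⟨B0, hB0⟩
    · simp
    -- removing the index of a cell
    have hrem : ∀ c ∈ g Γ, (Γ.erase (ix c)).card = m ∧ g (Γ.erase (ix c)) ⊆ g Γ ∧
        c ∉ g (Γ.erase (ix c)) := by
      intro c hc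
      refine ⟨by rw [card_erase_of_mem (hix Γ c hc)]; omega, hmono _ _ (erase_subset _ _), ?_⟩
      intro hcon
      exact notMem_erase _ _ (hix _ c hcon)
    by_cases hconst : ∃ c ∈ g Γ, ∀ A ∈ S, ∀ B ∈ S, c ∈ A → c ∈ B
    · obtain ⟨c, hc, hcc⟩ := hconst
      obtain ⟨h1, h2, h3⟩ := hrem c hc
      have hcK : c ∉ K := disjoint_left.1 hd hc
      have h4 := ih _ S (insert c K) h1 hS hbad ?_ ?_
      · have h5 : (insert c K)ᶜ.card + 1 = Kᶜ.card := by
          rw [card_compl, card_compl, card_insert_of_notMem hcK]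
          have := card_le_univ (insert c K)
          rw [card_insert_of_notMem hcK] at this
          omega
        rw [pow_succ, ← h5, pow_succ, ← mul_assoc]
        exact Nat.mul_le_mul_right 2 h4
      · intro A hA B hB x hx
        rcases mem_insert.1 hx with rfl | hx
        · exact hcc A hA B hB
        · exact hK A hA B hB x hx
      · rw [disjoint_insert_right]
        exact ⟨h3, hd.mono_left h2⟩
    · push Not at hconst
      -- the chain
      have hchain : ∃ s ∈ g Γ, ∃ t ∈ g Γ, ∃ w, w ∉ g Γ ∧ (∀ B ∈ S, s ∈ B → w ∈ B) ∧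
          ∀ B ∈ S, w ∈ B → t ∈ B := by
        by_contra hcon
        push Not at hcon
        have hgne : (g Γ).Nonempty := by
          rw [nonempty_iff_ne_empty]
          intro h
          apply hbad B0 hB0 Γ hΓne
          · rw [h]; exact disjoint_empty_right _
          · rw [h, union_empty]; exact hB0
        -- smallest members with s, largest members without t
        have hMs : ∀ s ∈ g Γ, ∃ Z ∈ S, ∀ x, x ∈ Z ↔ ∀ B ∈ S, s ∈ B → x ∈ B := by
          intro s hs
          obtain ⟨A, hA, B, hB, h1, h2⟩ := hconst s hs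
          obtain ⟨Z, hZ, hZ'⟩ := hS.exists_inter (S.filter fun B => s ∈ B)
            ⟨A, mem_filter.2 ⟨hA, h1⟩⟩ id fun C hC => (mem_filter.1 hC).1
          refine ⟨Z, hZ, fun x => ?_⟩
          rw [hZ']
          constructor
          · intro h3 B hB h4
            exact h3 B (mem_filter.2 ⟨hB, h4⟩)
          · intro h3 B hB
            exact h3 B (mem_filter.1 hB).1 (mem_filter.1 hB).2
        have hmt : ∀ t ∈ g Γ, ∃ Z ∈ S, ∀ x, x ∈ Z ↔ ∃ B ∈ S, t ∉ B ∧ x ∈ B := by
          intro t ht
          obtain ⟨A, hA, B, hB, h1, h2⟩ := hconst t ht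
          obtain ⟨Z, hZ, hZ'⟩ := hS.exists_union (S.filter fun B => t ∉ B)
            ⟨B, mem_filter.2 ⟨hB, h2⟩⟩ id fun C hC => (mem_filter.1 hC).1
          refine ⟨Z, hZ, fun x => ?_⟩
          rw [hZ']
          constructor
          · rintro ⟨B, hB, h3⟩
            exact ⟨B, (mem_filter.1 hB).1, (mem_filter.1 hB).2, h3⟩
          · rintro ⟨B, hB, h3, h4⟩
            exact ⟨B, mem_filter.2 ⟨hB, h3⟩, h4⟩
        choose! P hPS hP using hMs
        choose! Q hQS hQ using hmt
        obtain ⟨U, hUS, hU⟩ := hS.exists_union (g Γ) hgne P hPS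
        obtain ⟨V, hVS, hV⟩ := hS.exists_inter (g Γ) hgne Q hQS
        have hgU : g Γ ⊆ U := by
          intro s hs
          exact (hU s).2 ⟨s, hs, (hP s hs s).2 fun B _ h => h⟩
        have hgV : ∀ t ∈ g Γ, t ∉ V := by
          intro t ht hcon2
          obtain ⟨B, hB, htB, htB'⟩ := (hQ t ht t).1 ((hV t).1 hcon2 t ht)
          exact htB htB'
        have hUV : U ∩ V ∈ S := (hS U hUS V hVS).2
        apply hbad (U ∩ V) hUV Γ hΓne
        · rw [disjoint_right]
          intro t ht hcon2
          exact hgV t ht (mem_inter.1 hcon2).2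
        · have : U ∩ V ∪ g Γ = U := by
            ext x
            rw [mem_union, mem_inter]
            constructor
            · rintro (h | h)
              · exact h.1
              · exact hgU h
            · intro hx
              by_cases hxg : x ∈ g Γ
              · exact Or.inr hxg
              · left
                refine ⟨hx, (hV x).2 fun t ht => ?_⟩
                obtain ⟨s, hs, hxs⟩ := (hU x).1 hx
                obtain ⟨B, hB, h1, h2⟩ := hcon s hs t ht x hxg ((hP s hs x).1 hxs)
                exact (hQ t ht x).2 ⟨B, hB, h2, h1⟩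
          rw [this]
          exact hUS
      obtain ⟨s, hs, t, ht, w, hw, hsw, hwt⟩ := hchain
      have hwK : w ∉ K := by
        intro h
        obtain ⟨A, hA, B, hB, h1, h2⟩ := hconst t ht
        obtain ⟨A', hA', B', hB', h1', h2'⟩ := hconst s hs
        -- w lies in A', hence in all members, hence t lies in all members
        exact h2 (hwt B hB (hK A' hA' B hB w h (hsw A' hA' h1')))
      have two : ∀ (c : X) (T : Finset (Finset X)), c ∈ g Γ → T ⊆ S → Lat T →
          (∀ A ∈ T, ∀ B ∈ T, c ∈ A → c ∈ B) → (∀ A ∈ T, ∀ B ∈ T, w ∈ A → w ∈ B) →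
          T.card * 2 ^ m * 2 ^ 2 ≤ 2 ^ Kᶜ.card := by
        intro c T hc hTS hT hcT hwT
        obtain ⟨h1, h2, h3⟩ := hrem c hc
        have hcK : c ∉ K := disjoint_left.1 hd hc
        have hcw : c ≠ w := fun h => hw (h ▸ hc)
        have h4 := ih _ T (insert c (insert w K)) h1 hT (hbad.mono hTS) ?_ ?_
        · have h6 : c ∉ insert w K := by
            rw [mem_insert]
            tauto
          have h5 : (insert c (insert w K))ᶜ.card + 2 = Kᶜ.card := by
            have := card_le_univ (insert c (insert w K))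
            rw [card_insert_of_notMem h6, card_insert_of_notMem hwK] at this
            rw [card_compl, card_compl, card_insert_of_notMem h6, card_insert_of_notMem hwK]
            omega
          rw [← h5, pow_add]
          exact Nat.mul_le_mul_right _ h4
        · intro A hA B hB x hx
          rcases mem_insert.1 hx with rfl | hx
          · exact hcT A hA B hB
          rcases mem_insert.1 hx with rfl | hx
          · exact hwT A hA B hB
          · exact hK A (hTS hA) B (hTS hB) x hx
        · rw [disjoint_insert_right, disjoint_insert_right]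
          exact ⟨h3, fun h => hw (h2 h), hd.mono_left h2⟩
      have h0 := two s (S.filter fun B => w ∉ B) hs (filter_subset _ _) (hS.filter_notMem w)
        (fun A hA B hB h => absurd (hsw A (mem_filter.1 hA).1 h) (mem_filter.1 hA).2)
        (fun A hA B hB h => absurd h (mem_filter.1 hA).2)
      have h1 := two t (S.filter fun B => w ∈ B) ht (filter_subset _ _) (hS.filter_mem w)
        (fun A hA B hB h => hwt B (mem_filter.1 hB).1 (mem_filter.1 hB).2)
        (fun A hA B hB h => (mem_filter.1 hB).2)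
      have h2 : (S.filter fun B => w ∈ B).card + (S.filter fun B => w ∉ B).card = S.card :=
        card_filter_add_card_filter_not _
      have h3 : 2 * (S.card * 2 ^ (m + 1)) = (S.filter fun B => w ∉ B).card * 2 ^ m * 2 ^ 2 +
          (S.filter fun B => w ∈ B).card * 2 ^ m * 2 ^ 2 := by
        rw [← h2, pow_succ]
        ring
      omega

theorem main (g : Finset (Fin N) → Finset X) (hmono : ∀ γ γ', γ ⊆ γ' → g γ ⊆ g γ')
    (ix : X → Fin N) (hix : ∀ γ, ∀ c ∈ g γ, ix c ∈ γ) (S : Finset (Finset X)) (h1 : Lat S)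
    (h2 : Bad g S) : S.card * 2 ^ N ≤ 2 ^ Fintype.card X := by
  have h := main_aux g hmono ix hix N univ S ∅ (by simp) h1 h2 (by simp) (disjoint_empty_right _)
  rwa [compl_empty, card_univ] at h

end Q123.PHJ
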